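import Pool.Agent.Q4.SPC.Stm3
import Pool.Agent.Q158.SPC.SF

/-!
# Project SPC (helper4), job GF: finitely many cosets in a double coset at `v` for `GSp_2n`
-/

set_option autoImplicit false

open IsDedekindDomain NumberField Matrix Q4.GLC Q4.SPC

noncomputable section

namespace Q277.SPC

variable {F : Type} [Field F] [NumberField F] {n : ℕ}

theorem int_of_mem {g : GSp n (Af F)} (hg : g ∈ UG F n 1) : DvdS 1 g.1.1.1 := by
  have e2 : g.1.1.1 = (g.1.1.1 - 1) + 1 := by abel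
  rw [e2]
  exact (mem_UG.1 hg).1.1.add dvdS_one_one

theorem int_inv_of_mem {g : GSp n (Af F)} (hg : g ∈ UG F n 1) : DvdS 1 g.1.1⁻¹.1 := by
  have e2 : g.1.1⁻¹.1 = (g.1.1⁻¹.1 - 1) + 1 := by abel
  rw [e2]
  exact (mem_UG.1 hg).1.2.add dvdS_one_one

theorem int_nu_of_mem {g : GSp n (Af F)} (hg : g ∈ UG F n 1) : DvdN 1 g.1.2.1 := by
  have e2 : g.1.2.1 = (g.1.2.1 - 1) + 1 := by ring
  rw [e2]
  exact (mem_UG.1 hg).2.1.add dvdN_one_one

theorem int_nu_inv_of_mem {g : GSp n (Af F)} (hg : g ∈ UG F n 1) : DvdN 1 g.1.2⁻¹.1 := by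
  have e2 : g.1.2⁻¹.1 = (g.1.2⁻¹.1 - 1) + 1 := by ring
  rw [e2]
  exact (mem_UG.1 hg).2.2.add dvdN_one_one

theorem le_of_int {x : Af F} (h : DvdN 1 x) (v : Pl F) : Valued.v (x v) ≤ 1 := by
  have h2 := h v
  rw [Nat.cast_one] at h2
  have h1 : Valued.v ((1 : Af F) v) = 1 := map_one _
  rwa [h1] at h2

theorem gf : GF := by
  intro GIh F _ _ n v t ht
  obtain ⟨M, hM, -, hMt⟩ := GIh F n t⁻¹ 1 le_rfl
  have hfin : Finite (𝓞 F ⧸ Ideal.span {(M : 𝓞 F)}) := by
    apply Ideal.finiteQuotientOfFreeOfNeBot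
    rw [Ne, Ideal.span_singleton_eq_bot]
    have : M ≠ 0 := Nat.one_le_iff_ne_zero.1 hM
    exact_mod_cast this
  let f : KG F n v → ((Fin n ⊕ Fin n → Fin n ⊕ Fin n → 𝓞 F ⧸ Ideal.span {(M : 𝓞 F)}) ×
      (𝓞 F ⧸ Ideal.span {(M : 𝓞 F)})) :=
    fun k => (fun i j => Q158.SPC.rs v hM ((k.1.1.1.1 i j) v)
        (le_of_int (int_of_mem (mem_KG.1 k.2).1 i j) v),
      Q158.SPC.rs v hM (k.1.1.2.1 v) (le_of_int (int_nu_of_mem (mem_KG.1 k.2).1) v))
  have hdif : ∀ a b : KG F n v, f a = f b →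
      DvdS M (b.1.1.1.1 - a.1.1.1.1) ∧ DvdN M (b.1.1.2.1 - a.1.1.2.1) := by
    intro a b hab
    have ha := mem_KG.1 a.2
    have hb := mem_KG.1 b.2
    have hab1 := (Prod.ext_iff.1 hab).1
    have hab2 := (Prod.ext_iff.1 hab).2
    constructor
    · intro i j w
      change Valued.v ((b.1.1.1.1 i j) w - (a.1.1.1.1 i j) w) ≤ _
      by_cases hw : w = v
      · subst hw
        exact Q158.SPC.rs_eq w hM _ _ (le_of_int (int_of_mem ha.1 i j) w)
          (le_of_int (int_of_mem hb.1 i j) w) (congrFun (congrFun hab1 i) j)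
      · rw [(ha.2 w hw).1 i j, (hb.2 w hw).1 i j, sub_self, map_zero]
        exact zero_le
    · intro w
      change Valued.v (b.1.1.2.1 w - a.1.1.2.1 w) ≤ _
      by_cases hw : w = v
      · subst hw
        exact Q158.SPC.rs_eq w hM _ _ (le_of_int (int_nu_of_mem ha.1) w)
          (le_of_int (int_nu_of_mem hb.1) w) hab2
      · rw [(ha.2 w hw).2, (hb.2 w hw).2, sub_self, map_zero]
        exact zero_le
  have hf : ∀ a b : KG F n v, f a = f b →
      a⁻¹ * b ∈ MulAction.stabilizer (KG F n v) (t : GSp n (Af F) ⧸ KG F n v) := by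
    intro a b hab
    have ha := mem_KG.1 a.2
    have hb := mem_KG.1 b.2
    obtain ⟨h1, h1'⟩ := hdif a b hab
    obtain ⟨h5, h5'⟩ := hdif b a hab.symm
    have h2 : (a.1⁻¹ * b.1 : GSp n (Af F)) ∈ UG F n M := by
      rw [mem_UG]
      refine ⟨⟨?_, ?_⟩, ?_, ?_⟩
      · have e : (a.1⁻¹ * b.1 : GSp n (Af F)).1.1.1 - 1 =
            a.1.1.1⁻¹.1 * (b.1.1.1.1 - a.1.1.1.1) := by
          have h3 : a.1.1.1⁻¹.1 * a.1.1.1.1 = 1 := by
            rw [← Units.val_mul, inv_mul_cancel, Units.val_one]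
          change a.1.1.1⁻¹.1 * b.1.1.1.1 - 1 = _
          rw [mul_sub, h3]
        rw [e]
        exact (int_inv_of_mem ha.1).int_mul h1
      · have e : (a.1⁻¹ * b.1 : GSp n (Af F)).1.1⁻¹.1 - 1 =
            b.1.1.1⁻¹.1 * (a.1.1.1.1 - b.1.1.1.1) := by
          have h3 : b.1.1.1⁻¹.1 * b.1.1.1.1 = 1 := by
            rw [← Units.val_mul, inv_mul_cancel, Units.val_one]
          change (a.1.1.1⁻¹ * b.1.1.1)⁻¹.1 - 1 = _
          rw [_root_.mul_inv_rev, inv_inv, Units.val_mul, mul_sub, h3]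
        rw [e]
        exact (int_inv_of_mem hb.1).int_mul h5
      · have e : (a.1⁻¹ * b.1 : GSp n (Af F)).1.2.1 - 1 =
            (b.1.1.2.1 - a.1.1.2.1) * a.1.1.2⁻¹.1 := by
          have h3 : a.1.1.2.1 * a.1.1.2⁻¹.1 = 1 := by
            rw [← Units.val_mul, mul_inv_cancel, Units.val_one]
          change a.1.1.2⁻¹.1 * b.1.1.2.1 - 1 = _
          rw [sub_mul, h3, mul_comm]
        rw [e]
        exact h1'.mul_int (int_nu_inv_of_mem ha.1)
      · have e : (a.1⁻¹ * b.1 : GSp n (Af F)).1.2⁻¹.1 - 1 =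
            (a.1.1.2.1 - b.1.1.2.1) * b.1.1.2⁻¹.1 := by
          have h3 : b.1.1.2.1 * b.1.1.2⁻¹.1 = 1 := by
            rw [← Units.val_mul, mul_inv_cancel, Units.val_one]
          change (a.1.1.2⁻¹ * b.1.1.2)⁻¹.1 - 1 = _
          rw [_root_.mul_inv_rev, inv_inv, Units.val_mul, sub_mul, h3, mul_comm]
        rw [e]
        exact h5'.mul_int (int_nu_inv_of_mem hb.1)
    rw [MulAction.mem_stabilizer_iff]
    have h3 : (a⁻¹ * b) • ((t : GSp n (Af F)) : GSp n (Af F) ⧸ KG F n v) =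
        (((a⁻¹ * b : KG F n v).1 * t : GSp n (Af F)) : GSp n (Af F) ⧸ KG F n v) := rfl
    rw [h3, eq_comm, QuotientGroup.eq, ← mul_assoc, mem_KG]
    constructor
    · have := hMt _ h2
      rw [inv_inv] at this
      exact this
    · rw [gat_iff] at ht ⊢
      intro w hw
      rw [map_mul, map_mul, map_inv, ht w hw, inv_one, one_mul, mul_one]
      have h4 : (a⁻¹ * b : KG F n v).1 ∈ KG F n v := (a⁻¹ * b).2
      exact gat_iff.1 (mem_KG.1 h4).2 w hw
  have hq : Finite (KG F n v ⧸ MulAction.stabilizer (KG F n v)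
      (t : GSp n (Af F) ⧸ KG F n v)) := by
    apply Finite.of_injective (fun q => f q.out)
    intro q q' h
    have := hf _ _ h
    rw [← QuotientGroup.out_eq' q, ← QuotientGroup.out_eq' q']
    exact QuotientGroup.eq.2 this
  have := Finite.of_equiv _ (MulAction.orbitEquivQuotientStabilizer (KG F n v)
    (t : GSp n (Af F) ⧸ KG F n v)).symm
  exact Set.toFinite _

end Q277.SPC

end
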