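import Pool.Agent.Q4.SPC.Stm4
import Pool.Agent.Q158.SPC.SF

/-!
# Project SPC (helper4), job LF: finitely many cosets in a double coset at `v` for `GL_n`
-/

set_option autoImplicit false

open IsDedekindDomain NumberField Matrix Q4.GLC Q4.SPC

noncomputable section

namespace Q277.SPC.LFj

variable {F : Type} [Field F] [NumberField F] {n : ℕ}

/-- the component homomorphism -/
def cm (F : Type) [Field F] [NumberField F] (n : ℕ) (w : Pl F) :
    Gf F n →* GL (Fin n) (w.adicCompletion F) :=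
  Matrix.GeneralLinearGroup.map (RestrictedProduct.evalRingHom _ w)

theorem cm_val (w : Pl F) (g : Gf F n) (i j : Fin n) : (cm F n w g).1 i j = (g.1 i j) w := rfl

theorem one_comp (w : Pl F) (i j : Fin n) : ((1 : Matrix (Fin n) (Fin n) (Af F)) i j) w =
    (1 : Matrix (Fin n) (Fin n) (w.adicCompletion F)) i j := by
  rw [Matrix.one_apply, Matrix.one_apply]
  split_ifs <;> rfl

theorem atV_iff {v : Pl F} {g : Gf F n} : AtV v g ↔ ∀ w, w ≠ v → cm F n w g = 1 := by
  refine forall_congr' fun w => forall_congr' fun _ => ?_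
  constructor
  · intro h
    refine Units.ext (Matrix.ext fun i j => ?_)
    rw [cm_val, h i j, one_comp]
    rfl
  · intro h i j
    rw [← cm_val, h, one_comp]
    rfl

theorem mem_Kv_iff {v : Pl F} {g : Gf F n} : g ∈ Kv (F := F) n v ↔ g ∈ UN F n 1 ∧ AtV v g := by
  constructor
  · rintro ⟨h1, h2⟩
    exact ⟨h1, fun w hw i j => (h2 w hw i j).1⟩
  · rintro ⟨h1, h2⟩
    have h3 : AtV v g⁻¹ := atV_iff.2 fun w hw => by rw [map_inv, atV_iff.1 h2 w hw, inv_one]
    exact ⟨h1, fun w hw i j => ⟨h2 w hw i j, h3 w hw i j⟩⟩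

theorem int_of_mem {g : Gf F n} (hg : g ∈ UN F n 1) : DvdM 1 g.1 := by
  have e2 : g.1 = (g.1 - 1) + 1 := by abel
  rw [e2]
  exact (mem_UN.1 hg).1.add dvdM_one_one

theorem int_inv_of_mem {g : Gf F n} (hg : g ∈ UN F n 1) : DvdM 1 g⁻¹.1 := by
  have e2 : g⁻¹.1 = (g⁻¹.1 - 1) + 1 := by abel
  rw [e2]
  exact (mem_UN.1 hg).2.add dvdM_one_one

theorem le_of_int {x : Af F} (h : DvdN 1 x) (v : Pl F) : Valued.v (x v) ≤ 1 := by
  have h2 := h v
  rw [Nat.cast_one] at h2
  have h1 : Valued.v ((1 : Af F) v) = 1 := map_one _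
  rwa [h1] at h2

theorem lf : LF := by
  intro hDen F _ _ n v t ht
  obtain ⟨M, hM, -, hMt⟩ := hDen F n t⁻¹ 1 le_rfl
  have hfin : Finite (𝓞 F ⧸ Ideal.span {(M : 𝓞 F)}) := by
    apply Ideal.finiteQuotientOfFreeOfNeBot
    rw [Ne, Ideal.span_singleton_eq_bot]
    have : M ≠ 0 := Nat.one_le_iff_ne_zero.1 hM
    exact_mod_cast this
  let f : Kv (F := F) n v → (Fin n → Fin n → 𝓞 F ⧸ Ideal.span {(M : 𝓞 F)}) :=
    fun k i j => Q158.SPC.rs v hM ((k.1.1 i j) v)
      (le_of_int (int_of_mem (mem_Kv_iff.1 k.2).1 i j) v)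
  have hdif : ∀ a b : Kv (F := F) n v, f a = f b → DvdM M (b.1.1 - a.1.1) := by
    intro a b hab
    have ha := mem_Kv_iff.1 a.2
    have hb := mem_Kv_iff.1 b.2
    intro i j w
    change Valued.v ((b.1.1 i j) w - (a.1.1 i j) w) ≤ _
    by_cases hw : w = v
    · subst hw
      exact Q158.SPC.rs_eq w hM _ _ (le_of_int (int_of_mem ha.1 i j) w)
        (le_of_int (int_of_mem hb.1 i j) w) (congrFun (congrFun hab i) j)
    · rw [ha.2 w hw i j, hb.2 w hw i j, sub_self, map_zero]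
      exact zero_le
  have hf : ∀ a b : Kv (F := F) n v, f a = f b →
      a⁻¹ * b ∈ MulAction.stabilizer (Kv (F := F) n v) (t : Gf F n ⧸ Kv (F := F) n v) := by
    intro a b hab
    have ha := mem_Kv_iff.1 a.2
    have hb := mem_Kv_iff.1 b.2
    have h1 := hdif a b hab
    have h5 := hdif b a hab.symm
    have h2 : (a.1⁻¹ * b.1 : Gf F n) ∈ UN F n M := by
      rw [mem_UN]
      refine ⟨?_, ?_⟩
      · have e : (a.1⁻¹ * b.1 : Gf F n).1 - 1 = a.1⁻¹.1 * (b.1.1 - a.1.1) := by
          have h3 : a.1⁻¹.1 * a.1.1 = 1 := by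
            rw [← Units.val_mul, inv_mul_cancel, Units.val_one]
          rw [Units.val_mul, mul_sub, h3]
        rw [e]
        exact (int_inv_of_mem ha.1).int_mul h1
      · have e : (a.1⁻¹ * b.1 : Gf F n)⁻¹.1 - 1 = b.1⁻¹.1 * (a.1.1 - b.1.1) := by
          have h3 : b.1⁻¹.1 * b.1.1 = 1 := by
            rw [← Units.val_mul, inv_mul_cancel, Units.val_one]
          rw [_root_.mul_inv_rev, inv_inv, Units.val_mul, mul_sub, h3]
        rw [e]
        exact (int_inv_of_mem hb.1).int_mul h5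
    rw [MulAction.mem_stabilizer_iff]
    have h3 : (a⁻¹ * b) • ((t : Gf F n) : Gf F n ⧸ Kv (F := F) n v) =
        (((a⁻¹ * b : Kv (F := F) n v).1 * t : Gf F n) : Gf F n ⧸ Kv (F := F) n v) := rfl
    rw [h3, eq_comm, QuotientGroup.eq, ← mul_assoc, mem_Kv_iff]
    constructor
    · have := hMt _ h2
      rw [inv_inv] at this
      exact this
    · rw [atV_iff] at ht ⊢
      intro w hw
      rw [map_mul, map_mul, map_inv, ht w hw, inv_one, one_mul, mul_one]
      have h4 : (a⁻¹ * b : Kv (F := F) n v).1 ∈ Kv (F := F) n v := (a⁻¹ * b).2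
      exact atV_iff.1 (mem_Kv_iff.1 h4).2 w hw
  have hq : Finite (Kv (F := F) n v ⧸ MulAction.stabilizer (Kv (F := F) n v)
      (t : Gf F n ⧸ Kv (F := F) n v)) := by
    apply Finite.of_injective (fun q => f q.out)
    intro q q' h
    have := hf _ _ h
    rw [← QuotientGroup.out_eq' q, ← QuotientGroup.out_eq' q']
    exact QuotientGroup.eq.2 this
  have := Finite.of_equiv _ (MulAction.orbitEquivQuotientStabilizer (Kv (F := F) n v)
    (t : Gf F n ⧸ Kv (F := F) n v)).symm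
  exact Set.toFinite _

end Q277.SPC.LFj

end
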